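import Pool.Agent.Helper87.MX.Fr

/-!
# MixingRates (MP_81910f_an): the entropy inequality for averages along powers of three
-/

set_option autoImplicit false

open MeasureTheory Finset Filter

namespace Pool.Agent.Helper70.MX

open Pool.Agent.Helper87.MX

theorem arc_zero : arc 0 0 = Set.univ := by
  have h := AddCircle.coe_image_Ico_eq (1 : ℝ) 0
  unfold arc
  rw [← h]
  simp

theorem ent_zero (μ : Measure Tor) [IsProbabilityMeasure μ] : ent μ 0 = 0 := by
  unfold ent
  simp [arc_zero]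

theorem s_AR (hE2 : S_E2) (hS2 : S_S2) : S_AR := by
  intro μ hμ hinv k c F hk hc hF K
  induction K with
  | zero => simp [ent_zero μ]
  | succ K ih =>
    have hGc : {x | ‖rav 3 k (F K) x - c‖ < ‖c‖ / 2}ᶜ =
        {x | ‖c‖ / 2 ≤ ‖rav 3 k (F K) x - c‖} := by
      ext x
      simp
    have hsep : Sep2 K {x | ‖rav 3 k (F K) x - c‖ < ‖c‖ / 2} :=
      hS2 k K c _ hk hc (fun x hx y hy => ⟨F K, hF K, hx, hy⟩)
    have h := hE2 μ hμ hinv K _ (μ.real {x | ‖rav 3 k (F K) x - c‖ < ‖c‖ / 2}ᶜ) hsep le_rfl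
      measureReal_le_one
    rw [sum_range_succ]
    rw [hGc] at h
    linarith

end Pool.Agent.Helper70.MX
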