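import Pool.Agent.Helper87.MX.Fr3
import Pool.Agent.Helper70.MX.AR

/-!
# MixingRates (MP_81910f_an): the entropy inequality for odd Lipschitz functions
-/

set_option autoImplicit false

open MeasureTheory Finset Filter

namespace Pool.Agent.Helper70.MX

open Pool.Agent.Helper87.MX

theorem s_ARo (hE2 : S_E2) (hSO : S_SO) : S_ARo := by
  intro μ hμ hinv P hP K
  induction K with
  | zero => simp [ent_zero μ]
  | succ K ih =>
    have hGc : {x | ‖P K x - 1‖ < 1 / 2}ᶜ = {x | 1 / 2 ≤ ‖P K x - 1‖} := by
      ext x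
      simp
    have h := hE2 μ hμ hinv K _ (μ.real {x | ‖P K x - 1‖ < 1 / 2}ᶜ) (hSO K (P K) (hP K)) le_rfl
      measureReal_le_one
    rw [sum_range_succ]
    rw [hGc] at h
    unfold far at ih ⊢
    linarith

end Pool.Agent.Helper70.MX
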